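import Pool.Agent.W908.K.K9

/-! Counting with hidden values that are found one after the other. -/

set_option autoImplicit false
set_option linter.unusedSectionVars false

namespace Pool.Agent.W908.LS

open Finset

variable {X V : Type} [Fintype X] [DecidableEq X] [Fintype V] [DecidableEq V]

/-- the hidden values and the hidden bits -/
abbrev Om (X V : Type) : Type := (X → V) × (X → Bool)

/-- the same values and bits in `S` -/
def Eqo (S : Finset X) (ω ω' : Om X V) : Prop := ∀ x ∈ S, ω.1 x = ω'.1 x ∧ ω.2 x = ω'.2 x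

/-- The set `S` can be found step by step. -/
inductive Reach (H : Finset X → Om X V → X → V → Prop) (ω : Om X V) : Finset X → Prop
  | nil : Reach H ω ∅
  | step {S : Finset X} {x : X} : Reach H ω S → x ∉ S → H S ω x (ω.1 x) → Reach H ω (insert x S)

theorem exists_final (H : Finset X → Om X V → X → V → Prop) (ω : Om X V) :
    ∃ S, Reach H ω S ∧ ∀ x, x ∉ S → ¬ H S ω x (ω.1 x) := by
  classical
  obtain ⟨S, hS, hmax⟩ := Finset.exists_max_image (univ.filter (fun S => Reach H ω S))
    Finset.card ⟨∅, Finset.mem_filter.2 ⟨Finset.mem_univ _, Reach.nil⟩⟩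
  rw [Finset.mem_filter] at hS
  refine ⟨S, hS.2, fun x hx h => ?_⟩
  have h1 := hmax (insert x S) (Finset.mem_filter.2 ⟨Finset.mem_univ _, hS.2.step hx h⟩)
  rw [Finset.card_insert_of_notMem hx] at h1
  omega

variable {H : Finset X → Om X V → X → V → Prop}

theorem Reach.congr (hH : ∀ S ω ω', Eqo S ω ω' → ∀ x w, H S ω x w ↔ H S ω' x w) {ω ω' : Om X V}
    {S : Finset X} (h : Reach H ω S) (he : Eqo S ω ω') : Reach H ω' S := by
  induction h with
  | nil => exact Reach.nil
  | @step S x h1 hx hh ih =>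
    have h2 : Eqo S ω ω' := fun y hy => he y (Finset.mem_insert_of_mem hy)
    refine (ih h2).step hx ?_
    rw [← (he x (Finset.mem_insert_self _ _)).1]
    exact (hH S ω ω' h2 _ _).1 hh

theorem reach_iff (hH : ∀ S ω ω', Eqo S ω ω' → ∀ x w, H S ω x w ↔ H S ω' x w) {ω ω' : Om X V}
    {S : Finset X} (he : Eqo S ω ω') : Reach H ω S ↔ Reach H ω' S :=
  ⟨fun h => h.congr hH he, fun h => h.congr hH fun x hx => ⟨((he x hx).1).symm, ((he x hx).2).symm⟩⟩

theorem Reach.last {ω : Om X V} {S : Finset X} (h : Reach H ω S) (hS : S ≠ ∅) :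
    ∃ x ∈ S, Reach H ω (S.erase x) ∧ H (S.erase x) ω x (ω.1 x) := by
  cases h with
  | nil => exact absurd rfl hS
  | @step S x h1 hx hh =>
    refine ⟨x, Finset.mem_insert_self _ _, ?_⟩
    rw [Finset.erase_insert hx]
    exact ⟨h1, hh⟩

/-- another value at `x` -/
def upd (ω : Om X V) (x : X) (v : V) : Om X V := (Function.update ω.1 x v, ω.2)

open Classical in
theorem coord {P : Om X V → Prop} {Q : Om X V → V → Prop} {x : X} {B : ℕ}
    (hP : ∀ ω v, P ω → P (upd ω x v)) (hQ : ∀ ω v w, Q ω w → Q (upd ω x v) w)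
    (hB : ∀ ω, (univ.filter (fun w => Q ω w)).card ≤ B) :
    (univ.filter (fun ω => P ω ∧ Q ω (ω.1 x))).card * Fintype.card V ≤
      B * (univ.filter (fun ω => P ω)).card := by
  have h1 : (univ.filter (fun ω => P ω ∧ Q ω (ω.1 x))).card * Fintype.card V =
      ((univ.filter (fun ω : Om X V => P ω ∧ Q ω (ω.1 x))) ×ˢ (univ : Finset V)).card := by
    rw [Finset.card_product, Finset.card_univ]
  have h2 : ((univ.filter (fun ω : Om X V => P ω ∧ Q ω (ω.1 x))) ×ˢ (univ : Finset V)).card ≤
      ((univ.filter (fun ω : Om X V => P ω)).sigma (fun ω => univ.filter (fun w => Q ω w))).card := by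
    refine Finset.card_le_card_of_injOn (fun p => ⟨upd p.1 x p.2, p.1.1 x⟩) ?_ ?_
    · intro p hp
      rw [Finset.mem_coe, Finset.mem_product, Finset.mem_filter] at hp
      rw [Finset.mem_coe, Finset.mem_sigma, Finset.mem_filter, Finset.mem_filter]
      exact ⟨⟨Finset.mem_univ _, hP _ _ hp.1.2.1⟩, Finset.mem_univ _, hQ _ _ _ hp.1.2.2⟩
    · rintro ⟨ω, v⟩ _ ⟨ω', v'⟩ _ h
      simp only [Sigma.mk.injEq, heq_eq_eq] at h
      obtain ⟨e1, e2⟩ := h
      unfold upd at e1
      rw [Prod.mk.injEq] at e1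
      obtain ⟨e1, e3⟩ := e1
      have hv : v = v' := by
        have := congrFun e1 x
        rwa [Function.update_self, Function.update_self] at this
      have hk : ω.1 = ω'.1 := by
        funext y
        by_cases hy : y = x
        · rw [hy]
          exact e2
        · have := congrFun e1 y
          rwa [Function.update_of_ne hy, Function.update_of_ne hy] at this
      rw [Prod.mk.injEq]
      exact ⟨Prod.ext hk e3, hv⟩
  rw [h1]
  refine h2.trans ?_
  rw [Finset.card_sigma]
  refine (Finset.sum_le_sum fun ω _ => hB ω).trans ?_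
  rw [Finset.sum_const, smul_eq_mul, mul_comm]

open Classical in
theorem card_reach (hH : ∀ S ω ω', Eqo S ω ω' → ∀ x w, H S ω x w ↔ H S ω' x w) {B : ℕ}
    (hB : ∀ S ω x, (univ.filter (fun w => H S ω x w)).card ≤ B) : ∀ (s : ℕ) (S : Finset X),
    S.card = s → (univ.filter (fun ω => Reach H ω S)).card * Fintype.card V ^ s ≤
      s.factorial * B ^ s * Fintype.card (Om X V) := by
  intro s
  induction s with
  | zero =>
    intro S hS
    rw [pow_zero, pow_zero, Nat.factorial_zero, mul_one, one_mul, one_mul]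
    exact Finset.card_le_univ _
  | succ s ih =>
    intro S hS
    have hne : S ≠ ∅ := by
      rintro rfl
      simp at hS
    have h1 : (univ.filter (fun ω => Reach H ω S)) ⊆ S.biUnion (fun x =>
        univ.filter (fun ω : Om X V => Reach H ω (S.erase x) ∧ H (S.erase x) ω x (ω.1 x))) := by
      intro ω hω
      rw [Finset.mem_filter] at hω
      obtain ⟨x, hx, h2⟩ := hω.2.last hne
      rw [Finset.mem_biUnion]
      exact ⟨x, hx, Finset.mem_filter.2 ⟨Finset.mem_univ _, h2⟩⟩
    have h2 := (Finset.card_le_card h1).trans Finset.card_biUnion_le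
    have hE : ∀ (x : X) (ω : Om X V) (v : V), Eqo (S.erase x) ω (upd ω x v) := by
      intro x ω v y hy
      exact ⟨(Function.update_of_ne (Finset.ne_of_mem_erase hy) _ _).symm, rfl⟩
    have h3 : ∀ x ∈ S, (univ.filter (fun ω : Om X V => Reach H ω (S.erase x) ∧
        H (S.erase x) ω x (ω.1 x))).card * Fintype.card V ^ (s + 1) ≤
        B * (s.factorial * B ^ s * Fintype.card (Om X V)) := by
      intro x hx
      have h4 := coord (P := fun ω : Om X V => Reach H ω (S.erase x))
        (Q := fun ω w => H (S.erase x) ω x w) (x := x) (B := B)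
        (fun ω v h => h.congr hH (hE x ω v))
        (fun ω v w h => (hH _ _ _ (hE x ω v) _ _).1 h) (fun ω => hB _ _ _)
      have h5 := ih (S.erase x) (by rw [Finset.card_erase_of_mem hx, hS]; rfl)
      calc _ = (univ.filter (fun ω : Om X V => Reach H ω (S.erase x) ∧
              H (S.erase x) ω x (ω.1 x))).card * Fintype.card V * Fintype.card V ^ s := by
            rw [pow_succ]
            ring
        _ ≤ B * (univ.filter (fun ω : Om X V => Reach H ω (S.erase x))).card *
              Fintype.card V ^ s := Nat.mul_le_mul_right _ h4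
        _ = B * ((univ.filter (fun ω : Om X V => Reach H ω (S.erase x))).card *
              Fintype.card V ^ s) := by ring
        _ ≤ _ := Nat.mul_le_mul_left _ h5
    calc _ ≤ (∑ x ∈ S, (univ.filter (fun ω : Om X V => Reach H ω (S.erase x) ∧
            H (S.erase x) ω x (ω.1 x))).card) * Fintype.card V ^ (s + 1) :=
          Nat.mul_le_mul_right _ h2
      _ = ∑ x ∈ S, (univ.filter (fun ω : Om X V => Reach H ω (S.erase x) ∧
            H (S.erase x) ω x (ω.1 x))).card * Fintype.card V ^ (s + 1) := Finset.sum_mul _ _ _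
      _ ≤ ∑ _x ∈ S, B * (s.factorial * B ^ s * Fintype.card (Om X V)) :=
          Finset.sum_le_sum h3
      _ = _ := by
          rw [Finset.sum_const, hS, smul_eq_mul, Nat.factorial_succ, pow_succ]
          ring

open Classical in
theorem card_det (hH : ∀ S ω ω', Eqo S ω ω' → ∀ x w, H S ω x w ↔ H S ω' x w)
    {g : Finset X → Om X V → X → Bool} (hg : ∀ S ω ω', Eqo S ω ω' → g S ω = g S ω')
    (S : Finset X) : (univ.filter (fun ω : Om X V => Reach H ω S ∧
      ∀ x, x ∉ S → ω.2 x = g S ω x)).card * 2 ^ (Fintype.card X - S.card) ≤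
      (univ.filter (fun ω : Om X V => Reach H ω S)).card := by
  have hc : Fintype.card ({x // x ∉ S} → Bool) = 2 ^ (Fintype.card X - S.card) := by
    rw [Fintype.card_fun, Fintype.card_bool]
    congr 1
    have h2 : (Finset.univ.filter (fun x => x ∉ S)) = Sᶜ := by
      ext x
      simp
    rw [Fintype.card_subtype, h2, Finset.card_compl]
  rw [← hc, ← Finset.card_univ (α := {x // x ∉ S} → Bool), ← Finset.card_product]
  refine Finset.card_le_card_of_injOn (fun p => (p.1.1, fun x => if h : x ∈ S then p.1.2 x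
    else p.2 ⟨x, h⟩)) ?_ ?_
  · intro p hp
    rw [Finset.mem_coe, Finset.mem_product, Finset.mem_filter] at hp
    rw [Finset.mem_coe, Finset.mem_filter]
    refine ⟨Finset.mem_univ _, hp.1.2.1.congr hH fun x hx => ⟨rfl, ?_⟩⟩
    simp only [dif_pos hx]
  · rintro ⟨ω, v⟩ hω ⟨ω', v'⟩ hω' h
    rw [Finset.mem_coe, Finset.mem_product, Finset.mem_filter] at hω hω'
    have h1 := hω.1.2.2
    have h1' := hω'.1.2.2
    simp only [Prod.mk.injEq] at h
    obtain ⟨e1, e2⟩ := h
    have e3 : ∀ x ∈ S, ω.2 x = ω'.2 x := by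
      intro x hx
      have := congrFun e2 x
      simpa only [dif_pos hx] using this
    have e4 : ∀ x (hx : x ∉ S), v ⟨x, hx⟩ = v' ⟨x, hx⟩ := by
      intro x hx
      have := congrFun e2 x
      simpa only [dif_neg hx] using this
    have e5 : Eqo S ω ω' := fun x hx => ⟨congrFun e1 x, e3 x hx⟩
    have e6 : ω.2 = ω'.2 := by
      funext x
      by_cases hx : x ∈ S
      · exact e3 x hx
      · have a1 : ω.2 x = g S ω x := h1 x hx
        have a2 : ω'.2 x = g S ω' x := h1' x hx
        rw [a1, a2, hg S ω ω' e5]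
    rw [Prod.mk.injEq]
    exact ⟨Prod.ext e1 e6, funext fun x => e4 x.1 x.2⟩

open Classical in
/-- The number of the cases in which everything is right. -/
theorem card_right (hH : ∀ S ω ω', Eqo S ω ω' → ∀ x w, H S ω x w ↔ H S ω' x w) {B : ℕ}
    (hB : ∀ S ω x, (univ.filter (fun w => H S ω x w)).card ≤ B)
    {g : Finset X → Om X V → X → Bool} (hg : ∀ S ω ω', Eqo S ω ω' → g S ω = g S ω')
    {R : Om X V → Prop} (hR : ∀ S ω, (∀ x, x ∉ S → ¬ H S ω x (ω.1 x)) → R ω →
      ∀ x, x ∉ S → ω.2 x = g S ω x)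
    (hV : 4 * (Fintype.card X * B) ≤ Fintype.card V) (hV0 : 0 < Fintype.card V) :
    ((univ.filter (fun ω : Om X V => R ω)).card : ℝ) ≤
      2 * (Fintype.card V : ℝ) ^ Fintype.card X := by
  obtain ⟨K, hK⟩ : ∃ K, K = Fintype.card X := ⟨_, rfl⟩
  obtain ⟨v, hv⟩ : ∃ v, v = Fintype.card V := ⟨_, rfl⟩
  rw [← hK, ← hv] at hV ⊢
  rw [← hv] at hV0
  have hv0 : (0 : ℝ) < v := by exact_mod_cast hV0
  have h1 : (univ.filter (fun ω : Om X V => R ω)) ⊆ (univ : Finset X).powerset.biUnion (fun S =>
      univ.filter (fun ω : Om X V => Reach H ω S ∧ ∀ x, x ∉ S → ω.2 x = g S ω x)) := by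
    intro ω hω
    rw [Finset.mem_filter] at hω
    obtain ⟨S, hS1, hS2⟩ := exists_final H ω
    rw [Finset.mem_biUnion]
    exact ⟨S, Finset.mem_powerset.2 (Finset.subset_univ _),
      Finset.mem_filter.2 ⟨Finset.mem_univ _, hS1, hR S ω hS2 hω.2⟩⟩
  have h2 := (Finset.card_le_card h1).trans Finset.card_biUnion_le
  have h3 : ∀ S ∈ (univ : Finset X).powerset, ((univ.filter (fun ω : Om X V => Reach H ω S ∧
      ∀ x, x ∉ S → ω.2 x = g S ω x)).card : ℝ) ≤
      (fun s : ℕ => (v : ℝ) ^ K * (s.factorial * (2 * B / v) ^ s)) S.card := by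
    intro S _
    have hSK : S.card ≤ K := by rw [hK]; exact Finset.card_le_univ S
    have h4 := card_det hH hg S
    have h5 := card_reach hH hB S.card S rfl
    rw [← hK] at h4
    rw [← hv] at h5
    have hO : Fintype.card (Om X V) = v ^ K * 2 ^ K := by
      rw [Fintype.card_prod, Fintype.card_fun, Fintype.card_fun, Fintype.card_bool, hK, hv]
    rw [hO] at h5
    have h6 : ((univ.filter (fun ω : Om X V => Reach H ω S ∧
        ∀ x, x ∉ S → ω.2 x = g S ω x)).card : ℝ) * 2 ^ (K - S.card) * v ^ S.card ≤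
        S.card.factorial * B ^ S.card * (v ^ K * 2 ^ K) := by
      have h7 := (Nat.mul_le_mul_right (v ^ S.card) h4).trans h5
      exact_mod_cast h7
    have h8 : (2 : ℝ) ^ K = 2 ^ (K - S.card) * 2 ^ S.card := by
      rw [← pow_add, Nat.sub_add_cancel hSK]
    rw [h8] at h6
    have h9 : (0 : ℝ) < 2 ^ (K - S.card) * v ^ S.card := by positivity
    refine le_of_mul_le_mul_right ?_ h9
    calc _ = ((univ.filter (fun ω : Om X V => Reach H ω S ∧
          ∀ x, x ∉ S → ω.2 x = g S ω x)).card : ℝ) * 2 ^ (K - S.card) * v ^ S.card := by ring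
      _ ≤ _ := h6
      _ = _ := by
        simp only [div_pow, mul_pow]
        field_simp
  have h4 : ((univ.filter (fun ω : Om X V => R ω)).card : ℝ) ≤
      ∑ S ∈ (univ : Finset X).powerset, (fun s : ℕ =>
        (v : ℝ) ^ K * (s.factorial * (2 * B / v) ^ s)) S.card := by
    refine le_trans ?_ (Finset.sum_le_sum h3)
    exact_mod_cast h2
  have e5 := Finset.sum_powerset_apply_card (fun s : ℕ =>
    (v : ℝ) ^ K * (s.factorial * (2 * B / v) ^ s)) (x := (univ : Finset X))
  rw [Finset.card_univ, ← hK] at e5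
  refine (h4.trans (le_of_eq e5)).trans ?_
  have hρ : (2 * B / v : ℝ) * K ≤ 1 / 2 := by
    rw [div_mul_eq_mul_div, div_le_iff₀ hv0]
    have : (4 * (K * B) : ℝ) ≤ v := by exact_mod_cast hV
    linarith
  have h5 : ∀ m ∈ range (K + 1), K.choose m • ((v : ℝ) ^ K * (m.factorial * (2 * B / v) ^ m)) ≤
      (v : ℝ) ^ K * (1 / 2) ^ m := by
    intro m _
    rw [nsmul_eq_mul]
    have h6 : ((K.choose m : ℕ) : ℝ) * m.factorial ≤ (K : ℝ) ^ m := by
      have h7 := Nat.descFactorial_le_pow K m
      rw [Nat.descFactorial_eq_factorial_mul_choose, mul_comm] at h7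
      exact_mod_cast h7
    calc ((K.choose m : ℕ) : ℝ) * ((v : ℝ) ^ K * (m.factorial * (2 * B / v) ^ m)) =
        (v : ℝ) ^ K * ((((K.choose m : ℕ) : ℝ) * m.factorial) * (2 * B / v) ^ m) := by ring
      _ ≤ (v : ℝ) ^ K * ((K : ℝ) ^ m * (2 * B / v) ^ m) := by
          apply mul_le_mul_of_nonneg_left _ (by positivity)
          exact mul_le_mul_of_nonneg_right h6 (by positivity)
      _ = (v : ℝ) ^ K * ((2 * B / v) * K) ^ m := by rw [← mul_pow, mul_comm (K : ℝ)]
      _ ≤ (v : ℝ) ^ K * (1 / 2) ^ m := by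
          apply mul_le_mul_of_nonneg_left _ (by positivity)
          exact pow_le_pow_left₀ (by positivity) hρ _
  refine (Finset.sum_le_sum h5).trans ?_
  rw [← Finset.mul_sum, mul_comm]
  exact mul_le_mul_of_nonneg_right (sum_geometric_two_le _) (by positivity)

end Pool.Agent.W908.LS
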