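import Pool.Agent.W908.L.L1
import Pool.Agent.W908.Q.Q3

/-! Hidden bits behind keys cannot all be found by quantum circuits. -/

set_option autoImplicit false
set_option linter.unusedSectionVars false

namespace Pool.Agent.W908.LS

open Finset Pool.Agent.NPC Pool.Agent.H620R2.Gauge H568R2 Pool.Agent.H676
open Pool.Agent.W908.KS (Keyed)
open Pool.Agent.W908.QS (cm cm_nonneg cm_le acc_close mass_sum mass_mono mass_le init_norm)

variable {X : Type} [Fintype X] [DecidableEq X] {n : ℕ}
  {O : (X → (Fin n → Bool)) → (X → Bool) → Oracle} {τ : List Bool → Option (X × (Fin n → Bool))}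

/-- the keys outside `S` are erased -/
def ES (O : (X → (Fin n → Bool)) → (X → Bool) → Oracle)
    (τ : List Bool → Option (X × (Fin n → Bool))) (S : Finset X) (ω : Om X (Fin n → Bool)) :
    Oracle := fun q =>
  match τ q with
  | none => O ω.1 ω.2 q
  | some p => if p.1 ∈ S then O ω.1 ω.2 q else false

theorem ES_none {S : Finset X} {ω : Om X (Fin n → Bool)} {q : List Bool} (h : τ q = none) :
    ES O τ S ω q = O ω.1 ω.2 q := by
  unfold ES
  rw [h]

theorem ES_some {S : Finset X} {ω : Om X (Fin n → Bool)} {q : List Bool}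
    {p : X × (Fin n → Bool)} (h : τ q = some p) :
    ES O τ S ω q = if p.1 ∈ S then O ω.1 ω.2 q else false := by
  unfold ES
  rw [h]

theorem ES_congr (hK : Keyed O τ) {S : Finset X} {ω ω' : Om X (Fin n → Bool)}
    (h : Eqo S ω ω') : ES O τ S ω = ES O τ S ω' := by
  funext q
  cases hτ : τ q with
  | none =>
    rw [ES_none hτ, ES_none hτ]
    exact hK.free q hτ _ _ _ _
  | some p =>
    rw [ES_some hτ, ES_some hτ]
    split_ifs with hp
    · obtain ⟨f, hf⟩ := hK.test q p.1 p.2 hτ
      rw [hf, hf, (h p.1 hp).1, (h p.1 hp).2]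
    · rfl

/-- the weight of the questions that test the value `w` at `x` -/
def uw (τ : List Bool → Option (X × (Fin n → Bool))) (x : X) (w : Fin n → Bool)
    (q : List Bool) : ℝ := if τ q = some (x, w) then 1 else 0

theorem uw_nonneg (x : X) (w : Fin n → Bool) (q : List Bool) : 0 ≤ uw τ x w q := by
  unfold uw
  split_ifs <;> norm_num

theorem sum_uw_le (x : X) (q : List Bool) : ∑ w, uw τ x w q ≤ 1 := by
  unfold uw
  rcases hτ : τ q with _ | ⟨y, v⟩
  · simp
  · rw [Finset.sum_eq_single v]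
    · split_ifs <;> norm_num
    · intro w _ hw
      rw [if_neg]
      intro h
      rw [Option.some.injEq, Prod.mk.injEq] at h
      exact hw h.2.symm
    · intro h
      exact absurd (Finset.mem_univ _) h

theorem cm_sum {D : Type} (S : Finset D) (A : Oracle) (w : D → List Bool → ℝ)
    (c : List Unit × List Gate) : cm A (fun q => ∑ d ∈ S, w d q) c = ∑ d ∈ S, cm A (w d) c :=
  mass_sum S A w _ _

/-- the total weight of the questions of all circuits that test the value `w` at `x` -/
noncomputable def TM (O : (X → (Fin n → Bool)) → (X → Bool) → Oracle)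
    (τ : List Bool → Option (X × (Fin n → Bool))) (c : X → List Unit × List Gate)
    (S : Finset X) (ω : Om X (Fin n → Bool)) (x : X) (w : Fin n → Bool) : ℝ :=
  ∑ y, cm (ES O τ S ω) (uw τ x w) (c y)

theorem TM_nonneg (c : X → List Unit × List Gate) (S : Finset X) (ω : Om X (Fin n → Bool))
    (x : X) (w : Fin n → Bool) : 0 ≤ TM O τ c S ω x w :=
  Finset.sum_nonneg fun _ _ => cm_nonneg (uw_nonneg x w) _ _

theorem sum_TM_le (c : X → List Unit × List Gate) {L : ℕ} (hL : ∀ x, (c x).2.length ≤ L)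
    (S : Finset X) (ω : Om X (Fin n → Bool)) (x : X) :
    ∑ w, TM O τ c S ω x w ≤ Fintype.card X * L := by
  unfold TM
  rw [Finset.sum_comm]
  have h1 : ∀ y ∈ (univ : Finset X), ∑ w, cm (ES O τ S ω) (uw τ x w) (c y) ≤ (L : ℝ) := by
    intro y _
    rw [← cm_sum]
    have h2 := cm_le (w := fun q => ∑ w, uw τ x w q) (δ := 1) zero_le_one (ES O τ S ω) (c y)
      fun q k _ z _ => sum_uw_le x z
    rw [mul_one] at h2
    refine h2.trans ?_
    exact_mod_cast hL y
  refine (Finset.sum_le_sum h1).trans ?_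
  rw [Finset.sum_const, Finset.card_univ, nsmul_eq_mul]

/-- the threshold -/
noncomputable def tq (K L : ℕ) : ℝ := 1 / (1024 * ((K + 1) * (L + 1)))

theorem tq_pos (K L : ℕ) : 0 < tq K L := by unfold tq; positivity

/-- the value `w` at `x` has much weight -/
def HQ (O : (X → (Fin n → Bool)) → (X → Bool) → Oracle)
    (τ : List Bool → Option (X × (Fin n → Bool))) (c : X → List Unit × List Gate) (L : ℕ)
    (S : Finset X) (ω : Om X (Fin n → Bool)) (x : X) (w : Fin n → Bool) : Prop :=
  tq (Fintype.card X) L < TM O τ c S ω x w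

theorem HQ_congr (hK : Keyed O τ) (c : X → List Unit × List Gate) (L : ℕ) (S : Finset X)
    (ω ω' : Om X (Fin n → Bool)) (h : Eqo S ω ω') (x : X) (w : Fin n → Bool) :
    HQ O τ c L S ω x w ↔ HQ O τ c L S ω' x w := by
  unfold HQ TM
  rw [ES_congr hK h]

open Classical in
theorem HQ_card (c : X → List Unit × List Gate) {L : ℕ} (hL : ∀ x, (c x).2.length ≤ L)
    (S : Finset X) (ω : Om X (Fin n → Bool)) (x : X) :
    (univ.filter (fun w => HQ O τ c L S ω x w)).card ≤
      1024 * ((Fintype.card X + 1) * (L + 1)) ^ 2 := by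
  obtain ⟨K, hK⟩ : ∃ K, K = Fintype.card X := ⟨_, rfl⟩
  rw [← hK]
  have h1 := sum_TM_le (O := O) (τ := τ) c hL S ω x
  rw [← hK] at h1
  have h2 : ((univ.filter (fun w => HQ O τ c L S ω x w)).card : ℝ) * tq K L ≤
      ∑ w, TM O τ c S ω x w := by
    rw [← nsmul_eq_mul, ← Finset.sum_const]
    refine (Finset.sum_le_sum (g := fun w => TM O τ c S ω x w) fun w hw => ?_).trans
      (Finset.sum_le_sum_of_subset_of_nonneg (Finset.filter_subset _ _)
        fun _ _ _ => TM_nonneg _ _ _ _ _)
    rw [Finset.mem_filter] at hw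
    have h3 := hw.2
    unfold HQ at h3
    rw [← hK] at h3
    exact h3.le
  have h3 := h2.trans h1
  unfold tq at h3
  rw [mul_one_div, div_le_iff₀ (by positivity)] at h3
  have h4 : ((univ.filter (fun w => HQ O τ c L S ω x w)).card : ℝ) ≤
      1024 * ((K + 1) * (L + 1)) ^ 2 := by
    have hK0 : (0 : ℝ) ≤ K := Nat.cast_nonneg _
    have hL0 : (0 : ℝ) ≤ L := Nat.cast_nonneg _
    refine h3.trans ?_
    have h5 : (K : ℝ) * L ≤ (K + 1) * (L + 1) := by nlinarith
    calc (K : ℝ) * L * (1024 * ((K + 1) * (L + 1))) ≤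
        ((K + 1) * (L + 1)) * (1024 * ((K + 1) * (L + 1))) :=
          mul_le_mul_of_nonneg_right h5 (by positivity)
      _ = _ := by ring
  exact_mod_cast h4

/-- the circuit gives the right answer `b` -/
def RightQ (A : Oracle) (c : List Unit × List Gate) (b : Bool) : Prop :=
  (b = true → 2 / 3 ≤ accProb A c) ∧ (b = false → accProb A c ≤ 1 / 3)

theorem close_final (hK : Keyed O τ) (c : X → List Unit × List Gate) {L : ℕ}
    (hL : ∀ x, (c x).2.length ≤ L) {S : Finset X} {ω : Om X (Fin n → Bool)}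
    (h : ∀ x, x ∉ S → ¬ HQ O τ c L S ω x (ω.1 x)) (x : X) :
    |accProb (ES O τ S ω) (c x) - accProb (O ω.1 ω.2) (c x)| ≤ 1 / 8 := by
  obtain ⟨K, hKd⟩ : ∃ K, K = Fintype.card X := ⟨_, rfl⟩
  obtain ⟨w, hw⟩ : ∃ w : List Bool → ℝ, w = fun q => ∑ y ∈ Sᶜ, uw τ y (ω.1 y) q := ⟨_, rfl⟩
  have hw0 : ∀ q, 0 ≤ w q := by
    intro q
    rw [hw]
    exact Finset.sum_nonneg fun _ _ => uw_nonneg _ _ _
  have hd : ∀ q, ES O τ S ω q ≠ O ω.1 ω.2 q → 1 ≤ w q := by
    intro q hq
    cases hτ : τ q with
    | none => exact absurd (ES_none hτ) hq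
    | some p =>
      rw [ES_some hτ] at hq
      split_ifs at hq with hp
      · exact absurd rfl hq
      · obtain ⟨f, hf⟩ := hK.test q p.1 p.2 hτ
        have h1 : ω.1 p.1 = p.2 := by
          by_contra h2
          apply hq
          rw [hf, decide_eq_false h2, Bool.false_and]
        rw [hw]
        refine le_trans ?_ (Finset.single_le_sum (f := fun y => uw τ y (ω.1 y) q)
          (fun y _ => uw_nonneg _ _ _) (Finset.mem_compl.2 hp))
        simp only [uw]
        rw [if_pos (by rw [hτ, h1])]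
  have h1 := acc_close hw0 hd (c x)
  refine h1.trans ?_
  have h2 : cm (ES O τ S ω) w (c x) ≤ K * tq K L := by
    rw [hw, cm_sum]
    have h3 : ∀ y ∈ Sᶜ, cm (ES O τ S ω) (uw τ y (ω.1 y)) (c x) ≤ tq K L := by
      intro y hy
      rw [Finset.mem_compl] at hy
      have h4 := h y hy
      unfold HQ at h4
      rw [← hKd, not_lt] at h4
      refine le_trans ?_ h4
      exact Finset.single_le_sum (f := fun z => cm (ES O τ S ω) (uw τ y (ω.1 y)) (c z))
        (fun z _ => cm_nonneg (uw_nonneg _ _) _ _) (Finset.mem_univ x)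
    refine (Finset.sum_le_sum h3).trans ?_
    rw [Finset.sum_const, nsmul_eq_mul]
    apply mul_le_mul_of_nonneg_right _ (tq_pos _ _).le
    have : Sᶜ.card ≤ K := by rw [hKd]; exact Finset.card_le_univ _
    exact_mod_cast this
  have hK0 : (0 : ℝ) ≤ K := Nat.cast_nonneg _
  have hL0 : (0 : ℝ) ≤ L := Nat.cast_nonneg _
  have h3 : ((c x).2.length : ℝ) * cm (ES O τ S ω) w (c x) ≤ (1 / 32) ^ 2 := by
    have h4 : ((c x).2.length : ℝ) ≤ L + 1 := by
      have := hL x
      exact_mod_cast (by omega : (c x).2.length ≤ L + 1)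
    have h5 : (0 : ℝ) ≤ cm (ES O τ S ω) w (c x) := cm_nonneg hw0 _ _
    have h6 : cm (ES O τ S ω) w (c x) ≤ (K + 1) * tq K L :=
      h2.trans (mul_le_mul_of_nonneg_right (by linarith) (tq_pos _ _).le)
    calc ((c x).2.length : ℝ) * cm (ES O τ S ω) w (c x) ≤ (L + 1) * ((K + 1) * tq K L) :=
          mul_le_mul h4 h6 h5 (by positivity)
      _ = (1 / 32) ^ 2 := by
        unfold tq
        field_simp
        norm_num
  have h4 : Real.sqrt (((c x).2.length : ℝ) * cm (ES O τ S ω) w (c x)) ≤ 1 / 32 := by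
    rw [Real.sqrt_le_left (by norm_num)]
    exact h3
  linarith

open Classical in
theorem all_rightQ (hK : Keyed O τ) (c : X → List Unit × List Gate) {L : ℕ}
    (hL : ∀ x, (c x).2.length ≤ L)
    (hV : 4 * (Fintype.card X * (1024 * ((Fintype.card X + 1) * (L + 1)) ^ 2)) ≤ 2 ^ n) :
    ((univ.filter (fun ω : (X → (Fin n → Bool)) × (X → Bool) => ∀ x,
      RightQ (O ω.1 ω.2) (c x) (ω.2 x))).card : ℝ) ≤ 2 * (2 ^ n) ^ Fintype.card X := by
  have hc : Fintype.card (Fin n → Bool) = 2 ^ n := by simp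
  have h1 := card_right (X := X) (V := Fin n → Bool) (H := HQ O τ c L)
    (fun S ω ω' h => HQ_congr hK c L S ω ω' h)
    (B := 1024 * ((Fintype.card X + 1) * (L + 1)) ^ 2) (fun S ω x => HQ_card c hL S ω x)
    (g := fun S ω x => decide (1 / 2 ≤ accProb (ES O τ S ω) (c x)))
    (fun S ω ω' h => by
      funext x
      rw [ES_congr hK h])
    (R := fun ω => ∀ x, RightQ (O ω.1 ω.2) (c x) (ω.2 x)) ?_ (by rw [hc]; exact hV)
    (by rw [hc]; positivity)
  · rw [hc] at h1
    push_cast at h1
    convert h1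
  · intro S ω hS hR x _
    have h2 := abs_le.1 (close_final hK c hL hS x)
    cases hb : ω.2 x with
    | true =>
      have h3 := (hR x).1 hb
      symm
      rw [decide_eq_true_eq]
      linarith [h2.1, h2.2]
    | false =>
      have h3 := (hR x).2 hb
      symm
      rw [decide_eq_false_iff_not, not_le]
      linarith [h2.1, h2.2]

end Pool.Agent.W908.LS
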