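import Pool.Agent.W908.L.L2
import Pool.Agent.W908.K.K11
import Pool.Agent.W908.Q.Q2

/-! A language in `UP` and `coUP` that needs quantum circuits of exponential size. -/

set_option autoImplicit false

namespace Pool.Agent.W908.LS

open Pool.Agent.NPC Pool.Agent.H620R2.Gauge Pool.Agent.H622R2 Finset H568R2 Pool.Agent.H676
open Pool.Agent.W908.SP (mem_strsOf' card_strsOf' Ex_owr unif_nn unif_sm Ex_unif_av)
open Pool.Agent.H591R3.PHG.Proj (owr owr_e owr_off owr_owr)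
open Pool.Agent.W908.PS (pwd length_pwd pe pe_inj pwd_on orc_off Ex_comm Rare pre_local
  pwd_local)
open Pool.Agent.W908.KS
open Pool.Agent.W908.HS (big_d)
open Pool.Agent.W908.QS (QAlg qbd qbd_len qbd_ques acc_local)

/-- the circuits are right for all inputs -/
def EvQ (D : QAlg) (n m κ r T : ℕ) (h : List Bool) (W : Oracle) : Prop :=
  ∀ x : Fin κ → Bool, RightQ (wd W T) (D.C (pairBits (zx (pwd W m) r x) h))
    (W (kp (zx (pwd W m) r x) n))

open Classical in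
theorem evQ_prob {N n m κ r T ℓ' L : ℕ} (D : QAlg) (h : List Bool) (hTl : T ≤ 2 ^ ℓ')
    (hlm : ℓ' ≤ m) (hn : n = m + κ + r) (hp : (qbd D).eval (2 * n + 1 + h.length) ≤ L)
    (hV : 4 * (2 ^ κ * (1024 * ((2 ^ κ + 1) * (L + 1)) ^ 2)) ≤ 2 ^ n)
    (hN : 2 ^ (3 * n + 4) ≤ N) : Ex unif (fun a : Fin N → Bool =>
      if EvQ D n m κ r T h (orc N a) then (1 : ℝ) else 0) ≤ 2 * (1 / 2) ^ (2 ^ κ) := by
  have hN2 : 2 ^ (3 * m + 2) ≤ N := (Nat.pow_le_pow_right (by norm_num) (by omega)).trans hN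
  rw [Ex_owr (pe hN2) (pe_inj hN2), Ex_comm]
  refine (Ex_mono unif_nn (G := fun _ => 2 * (1 / 2) ^ (2 ^ κ))
    fun z => ?_).trans (le_of_eq (Ex_const unif_sm _))
  obtain ⟨w, hw⟩ : ∃ w, w = List.ofFn z := ⟨_, rfl⟩
  have hwl : w.length = m := by rw [hw, List.length_ofFn]
  have hN3 : 2 ^ (2 * n + (w.length + κ + r) + 4) ≤ N :=
    (Nat.pow_le_pow_right (by norm_num) (by omega)).trans hN
  rw [Ex_owr (se w r n hN3) (se_inj w r n hN3)]
  refine (Ex_mono unif_nn (G := fun _ => 2 * (1 / 2) ^ (2 ^ κ))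
    fun a => ?_).trans (le_of_eq (Ex_const unif_sm _))
  obtain ⟨hK, hb⟩ := keyed hTl hlm hn hN3 hN2 a z hw
  have hX : Fintype.card (Fin κ → Bool) = 2 ^ κ := by simp
  have h1 := all_rightQ hK (fun x : Fin κ → Bool => D.C (pairBits (zx w r x) h)) (L := L)
    (fun x => by
      refine (qbd_len D _).trans ((eval_mono _ ?_).trans hp)
      rw [A2.length_pairBits, length_zx]
      omega) (by rw [hX]; exact hV)
  rw [Ex_unif_av, ← (fbE (X := Fin κ → Bool) (n := n)).sum_comp]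
  have e1 : ∀ ω : ((Fin κ → Bool) → (Fin n → Bool)) × ((Fin κ → Bool) → Bool),
      (if EvQ D n m κ r T h (orc N (owr (pe hN2) (owr (se w r n hN3) a (fbE ω)) z))
        then (1 : ℝ) else 0) =
      if ∀ x, RightQ (wd (orc N (owr (pe hN2) (owr (se w r n hN3) a (fb (ω.1, ω.2))) z)) T)
        (D.C (pairBits (zx w r x) h)) (ω.2 x) then (1 : ℝ) else 0 := by
    intro ω
    congr 1
    refine propext ?_
    unfold EvQ
    rw [pwd_on hN2, ← hw]
    refine forall_congr' fun x => ?_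
    have := hb ω.1 ω.2 x
    show RightQ _ _ (orc N (owr (pe hN2) (owr (se w r n hN3) a (fb (ω.1, ω.2))) z)
      (kp (zx w r x) n)) ↔ _
    rw [this]
    rfl
  rw [Finset.sum_congr rfl fun ω _ => e1 ω, Finset.sum_boole]
  have hG : Fintype.card (((Fin κ → Bool) × Fin n) ⊕ (Fin κ → Bool)) = 2 ^ κ * n + 2 ^ κ := by
    simp
  rw [hX] at h1
  rw [hG, div_le_iff₀ (by positivity)]
  refine h1.trans (le_of_eq ?_)
  rw [pow_add, pow_mul', one_div, inv_pow]
  field_simp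

theorem evQ_local {W W' : Oracle} {D : QAlg} {T n m κ r : ℕ} {h : List Bool} (hT : n + 1 ≤ T)
    (hn : n = m + κ + r) (hW : ∀ q : List Bool, q.length ≤ 3 * T + 2 → W q = W' q) :
    EvQ D n m κ r T h W ↔ EvQ D n m κ r T h W' := by
  unfold EvQ
  have h1 : pwd W m = pwd W' m := pwd_local hW (by omega)
  rw [wd_local hW, h1]
  refine forall_congr' fun x => ?_
  rw [hW (kp (zx (pwd W' m) r x) n)]
  rw [length_kp, length_zx, length_pwd]
  omega

/-- the language is exponentially hard in the worst case for the circuits, with advice -/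
def GoodQX (D : QAlg) (W : Oracle) : Prop :=
  ∃ d : ℕ, 0 < d ∧ ∀ n, d ≤ n → ∀ h : List Bool, h.length ≤ 2 ^ (n / d) →
    ∃ x : List Bool, x.length = n ∧
      ¬ ((x ∈ LK W → 2 / 3 ≤ accProb (OK W) (D.C (pairBits x h))) ∧
        (x ∉ LK W → accProb (OK W) (D.C (pairBits x h)) ≤ 1 / 3))

theorem evQ_of {W : Oracle} {D : QAlg} {T n m κ r : ℕ} {h : List Bool} (hn : n = m + κ + r)
    (hT : (qbd D).eval (2 * n + 1 + h.length) < T)
    (hx : ∀ x : List Bool, x.length = n →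
      ((x ∈ LK W → 2 / 3 ≤ accProb (OK W) (D.C (pairBits x h))) ∧
        (x ∉ LK W → accProb (OK W) (D.C (pairBits x h)) ≤ 1 / 3))) :
    EvQ D n m κ r T h W := by
  intro x
  have hl : (zx (pwd W m) r x).length = n := by rw [length_zx, length_pwd, hn]
  have h2 := hx _ hl
  have hl2 : (pairBits (zx (pwd W m) r x) h).length = 2 * n + 1 + h.length := by
    rw [A2.length_pairBits, hl]
    omega
  have h1 := acc_local D (O := OK W) (O' := wd W T) (x := pairBits (zx (pwd W m) r x) h)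
    le_rfl fun q hq => by
      refine OK_eq ?_
      rw [hl2] at hq
      omega
  have h3 : zx (pwd W m) r x ∈ LK W ↔ W (kp (zx (pwd W m) r x) n) = true := by
    unfold LK
    rw [Set.mem_ofPred_eq, hl]
  rw [h1, h3] at h2
  refine ⟨h2.1, fun hb => h2.2 ?_⟩
  rw [hb]
  simp

open Classical in
theorem xq_event {n m K T N : ℕ} (D : QAlg) (hK : 0 < K) (hn : 40 ≤ n)
    (hT : T ≤ 2 ^ (n / 4)) (hp : (qbd D).eval (2 * n + 1 + 2 ^ m) + 1 ≤ 2 ^ (n / 8))
    (hH : 8 * 2 ^ m + 8 ≤ 2 ^ (n / 8)) (hQ : 8 * K * ((n + 1) * (n + 2)) ≤ 2 ^ (n / 8))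
    (hN : 2 ^ (3 * n + 4) ≤ N) :
    Ex unif (fun a : Fin N → Bool => if ∃ c ≤ 2 ^ m, ∃ h ∈ strsOf c,
      EvQ D n (n / 4) (n / 8) (n - n / 4 - n / 8) T h (orc N a) then (1 : ℝ) else 0) ≤
      1 / (K * ((n + 1) * (n + 2))) := by
  obtain ⟨H, hHd⟩ : ∃ H, H = 2 ^ m := ⟨_, rfl⟩
  rw [← hHd] at hH hp ⊢
  obtain ⟨Y, hY⟩ : ∃ Y : List Bool → Oracle → Prop,
    Y = fun h W => EvQ D n (n / 4) (n / 8) (n - n / 4 - n / 8) T h W := ⟨_, rfl⟩
  have hY' : ∀ h W, EvQ D n (n / 4) (n / 8) (n - n / 4 - n / 8) T h W = Y h W := by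
    intro h W
    rw [hY]
  simp only [hY']
  have h1 : ∀ a : Fin N → Bool, (if ∃ c ≤ H, ∃ h ∈ strsOf c, Y h (orc N a)
      then (1 : ℝ) else 0) ≤
      ∑ c ∈ range (H + 1), ∑ h ∈ strsOf c, if Y h (orc N a) then (1 : ℝ) else 0 := by
    intro a
    have hnn : ∀ h : List Bool, (0 : ℝ) ≤ if Y h (orc N a)
      then (1 : ℝ) else 0 := fun h => by split_ifs <;> norm_num
    by_cases hE : ∃ c ≤ H, ∃ h ∈ strsOf c, Y h (orc N a)
    · rw [if_pos hE]
      obtain ⟨c, hc, h, hh, hj⟩ := hE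
      refine le_trans ?_ (Finset.single_le_sum (f := fun c => ∑ h ∈ strsOf c,
        if Y h (orc N a) then (1 : ℝ) else 0)
        (fun c _ => Finset.sum_nonneg fun h _ => hnn h)
        (Finset.mem_range.2 (by omega : c < H + 1)))
      refine le_trans ?_ (Finset.single_le_sum (f := fun h =>
        if Y h (orc N a) then (1 : ℝ) else 0)
        (fun h _ => hnn h) hh)
      rw [if_pos hj]
    · rw [if_neg hE]
      exact Finset.sum_nonneg fun c _ => Finset.sum_nonneg fun h _ => hnn h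
  refine (Ex_mono unif_nn h1).trans ?_
  rw [Ex_sum]
  obtain ⟨E, hE⟩ : ∃ E : ℕ, E = 2 ^ (n / 8) := ⟨_, rfl⟩
  rw [← hE] at hp hH hQ
  have hE0 : 0 < E := by rw [hE]; positivity
  obtain ⟨B, hB⟩ : ∃ B : ℝ, B = 2 * (1 / 2) ^ E := ⟨_, rfl⟩
  have hB0 : 0 ≤ B := by rw [hB]; positivity
  have hE5 : 4 * (2 ^ (n / 8) * (1024 * ((2 ^ (n / 8) + 1) * E) ^ 2)) ≤ 2 ^ n := by
    have h2 : 2 ^ (n / 8) + 1 ≤ 2 * 2 ^ (n / 8) := by
      have : 0 < 2 ^ (n / 8) := by positivity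
      omega
    calc 4 * (2 ^ (n / 8) * (1024 * ((2 ^ (n / 8) + 1) * E) ^ 2)) ≤
        4 * (2 ^ (n / 8) * (1024 * ((2 * 2 ^ (n / 8)) * E) ^ 2)) := by
          apply Nat.mul_le_mul_left
          apply Nat.mul_le_mul_left
          apply Nat.mul_le_mul_left
          exact Nat.pow_le_pow_left (Nat.mul_le_mul_right _ h2) _
      _ = 2 ^ (14 + 5 * (n / 8)) := by
          rw [hE]
          ring
      _ ≤ 2 ^ n := Nat.pow_le_pow_right (by norm_num) (by omega)
  have h2 : ∀ c ∈ range (H + 1), Ex unif (fun a : Fin N → Bool => ∑ h ∈ strsOf c,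
      if Y h (orc N a) then (1 : ℝ) else 0) ≤ 2 ^ H * B := by
    intro c hc
    rw [Finset.mem_range, Nat.lt_succ_iff] at hc
    rw [Ex_sum]
    have h3 : ∀ h ∈ strsOf c, Ex unif (fun a : Fin N → Bool =>
        if Y h (orc N a) then (1 : ℝ) else 0) ≤ B := by
      intro h hh
      rw [mem_strsOf'] at hh
      have h4 : (qbd D).eval (2 * n + 1 + h.length) ≤ (qbd D).eval (2 * n + 1 + H) :=
        eval_mono _ (by omega)
      have h5 := evQ_prob (N := N) (n := n) (m := n / 4) (κ := n / 8) (r := n - n / 4 - n / 8)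
        (T := T) (ℓ' := n / 4) (L := E - 1) D h hT le_rfl (by omega)
        (by omega) (by rw [Nat.sub_add_cancel hE0]; exact hE5) hN
      simp only [hY'] at h5
      refine h5.trans (le_of_eq ?_)
      rw [hB, hE]
    refine (Finset.sum_le_sum h3).trans ?_
    rw [Finset.sum_const, nsmul_eq_mul, card_strsOf']
    apply mul_le_mul_of_nonneg_right _ hB0
    push_cast
    exact pow_le_pow_right₀ (by norm_num) hc
  refine (Finset.sum_le_sum h2).trans ?_
  rw [Finset.sum_const, Finset.card_range, nsmul_eq_mul]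
  have h3 : ((H + 1 : ℕ) : ℝ) ≤ 2 ^ H := by
    have : H + 1 ≤ 2 ^ H := Nat.lt_two_pow_self
    exact_mod_cast this
  have h4 : (2 : ℝ) ^ (2 * H) * (1 / 2) ^ E ≤ 1 / 2 ^ (E / 2) := by
    rw [one_div_pow, mul_one_div, div_le_div_iff₀ (by positivity) (by positivity), one_mul,
      ← pow_add]
    exact pow_le_pow_right₀ (by norm_num) (by omega)
  have h5 : (K * ((n + 1) * (n + 2)) : ℝ) * 2 ≤ 2 ^ (E / 2) := by
    have h6 : E / 2 < 2 ^ (E / 2) := Nat.lt_two_pow_self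
    have h7 : K * ((n + 1) * (n + 2)) * 2 ≤ 2 ^ (E / 2) := by
      have h8 : 8 * K * ((n + 1) * (n + 2)) = 4 * (K * ((n + 1) * (n + 2)) * 2) := by ring
      omega
    exact_mod_cast h7
  have hKpos : (0 : ℝ) < K * ((n + 1) * (n + 2)) := by
    have : (0 : ℝ) < K := by exact_mod_cast hK
    positivity
  calc ((H + 1 : ℕ) : ℝ) * (2 ^ H * B)
      ≤ 2 ^ H * (2 ^ H * B) := mul_le_mul_of_nonneg_right h3 (by positivity)
    _ = 2 * (2 ^ (2 * H) * (1 / 2) ^ E) := by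
        rw [hB, two_mul H, pow_add]
        ring
    _ ≤ 2 * (1 / 2 ^ (E / 2)) := mul_le_mul_of_nonneg_left h4 (by norm_num)
    _ ≤ 1 / (K * ((n + 1) * (n + 2))) := by
        rw [mul_one_div, div_le_div_iff₀ (by positivity) hKpos, one_mul]
        linarith

theorem big_d8 (Q : Polynomial ℕ) : ∃ d : ℕ, 16 ≤ d ∧ ∀ n, d ≤ n →
    40 ≤ n ∧ Q.eval (2 * n + 1 + 2 ^ (n / d)) ≤ 2 ^ (n / 8) := by
  obtain ⟨d, hd, h⟩ := big_d (Polynomial.C 4 * Q ^ 2 + Polynomial.C 1024)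
  refine ⟨d, hd, fun n hn => ?_⟩
  have h1 := h n hn
  obtain ⟨q, hq⟩ : ∃ q, q = Q.eval (2 * n + 1 + 2 ^ (n / d)) := ⟨_, rfl⟩
  simp only [Polynomial.eval_add, Polynomial.eval_mul, Polynomial.eval_C, Polynomial.eval_pow]
    at h1
  rw [← hq] at h1 ⊢
  constructor
  · have h2 : 2 ^ 10 ≤ 2 ^ (n / 4) := by
      have : 2 ^ 10 = 1024 := by norm_num
      omega
    have h3 := (Nat.pow_le_pow_iff_right (by norm_num)).1 h2
    omega
  · have h2 : (2 * q) ^ 2 ≤ (2 ^ (n / 8 + 1)) ^ 2 := by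
      rw [← pow_mul]
      calc (2 * q) ^ 2 = 4 * q ^ 2 := by ring
        _ ≤ 2 ^ (n / 4) := by omega
        _ ≤ _ := Nat.pow_le_pow_right (by norm_num) (by omega)
    have h3 := (Nat.pow_le_pow_iff_left (by norm_num)).1 h2
    rw [pow_succ] at h3
    omega

theorem rare_goodQX (D : QAlg) : Rare {W | ¬ GoodQX D W} := by
  classical
  intro K hK
  obtain ⟨Q, hQ⟩ : ∃ Q : Polynomial ℕ, Q = (qbd D + 2 * Polynomial.X + 2) +
      (8 * Polynomial.X + 8) +
      Polynomial.C (8 * K) * ((Polynomial.X + 1) * (Polynomial.X + 2)) := ⟨_, rfl⟩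
  obtain ⟨d, hd16, hd⟩ := big_d8 Q
  have hQe : ∀ y, Q.eval y = ((qbd D).eval y + 2 * y + 2) + (8 * y + 8) +
      8 * K * ((y + 1) * (y + 2)) := by
    intro y
    rw [hQ]
    simp
  obtain ⟨T, hT⟩ : ∃ T : ℕ → ℕ, T = fun n => (qbd D).eval (2 * n + 1 + 2 ^ (n / d)) +
    2 * (2 * n + 1 + 2 ^ (n / d)) + 2 := ⟨_, rfl⟩
  have hTe : ∀ n, T n = (qbd D).eval (2 * n + 1 + 2 ^ (n / d)) +
    2 * (2 * n + 1 + 2 ^ (n / d)) + 2 := fun n => by rw [hT]
  refine ⟨fun n => 2 ^ (3 * T n + 2 + 1), fun n a => d ≤ n ∧ ∃ c ≤ 2 ^ (n / d), ∃ h ∈ strsOf c,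
      EvQ D n (n / 4) (n / 8) (n - n / 4 - n / 8) (T n) h (orc _ a), fun n => ?_,
      fun W hW => ?_⟩
  · by_cases hn : d ≤ n
    · obtain ⟨h40, h⟩ := hd n hn
      rw [hQe] at h
      have hpos : 0 < 2 ^ (n / d) := by positivity
      obtain ⟨y, hy⟩ : ∃ y, y = 2 * n + 1 + 2 ^ (n / d) := ⟨_, rfl⟩
      have hTn := hTe n
      have hyn : n ≤ y := by omega
      have hy2 : 2 ^ (n / d) ≤ y := by omega
      rw [← hy] at h hTn
      have hK2 : 8 * K * ((n + 1) * (n + 2)) ≤ 8 * K * ((y + 1) * (y + 2)) := by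
        apply Nat.mul_le_mul_left
        apply Nat.mul_le_mul <;> omega
      have hTy : 2 * y + 2 ≤ T n := by omega
      have h84 : 2 ^ (n / 8) ≤ 2 ^ (n / 4) := Nat.pow_le_pow_right (by norm_num) (by omega)
      have h1 := xq_event (N := 2 ^ (3 * T n + 2 + 1)) (n := n) (m := n / d) (T := T n) D hK
        h40 (by omega) (by rw [← hy]; omega) (by omega) (by omega)
        (Nat.pow_le_pow_right (by norm_num) (by omega))
      simp only [hn, true_and]
      exact h1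
    · simp only [hn, false_and, if_false]
      rw [Ex_const unif_sm]
      positivity
  · by_contra hcon
    push Not at hcon
    refine hW ⟨d, by omega, fun n hn h hh => ?_⟩
    by_contra hx
    push Not at hx
    have hTn := hTe n
    have h0 : (qbd D).eval (2 * n + 1 + h.length) ≤ (qbd D).eval (2 * n + 1 + 2 ^ (n / d)) :=
      eval_mono _ (by omega)
    refine hcon n hn h.length hh h (mem_strsOf _) ?_
    rw [evQ_local (W' := W) (by omega) (by omega) (fun q hq => pre_local W le_rfl hq)]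
    refine evQ_of (by omega) (by omega) fun x hxl => ?_
    exact hx x hxl

end Pool.Agent.W908.LS
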