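import Pool.Agent.W908.Q.QDefs

/-! Exponential hardness in the worst case for quantum circuits, relative to an oracle. -/

set_option autoImplicit false

namespace Pool.Agent.W908.LS

open Pool.Agent.NPC Pool.Agent.H620R2.Gauge

/-- The language `L` is exponentially hard in the worst case for quantum computation relative to
`A`, even with classical advice: for every uniform family `C` of quantum circuits of polynomial
size there is `d > 0` such that for every `n ≥ d` and every advice string `h` of length at most
`2 ^ (n / d)` the circuit `C ⟨x, h⟩` does not decide with error `1 / 3` whether `x` is in `L`, for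
some string `x` of length `n`. (With `h` an encoding of a family of quantum circuits: at every
large length `L` needs quantum circuits of exponential size.) -/
def QuantumExpHard (A : Oracle) (L : Set (List Bool)) : Prop :=
  ∀ C : List Bool → List Unit × List Gate, PolyTime (fun x => bits (C x)) →
    ∃ d : ℕ, 0 < d ∧ ∀ n : ℕ, d ≤ n → ∀ h : List Bool, h.length ≤ 2 ^ (n / d) →
      ∃ x : List Bool, x.length = n ∧
        ¬ ((x ∈ L → 2 / 3 ≤ accProb A (C (pairBits x h))) ∧
          (x ∉ L → accProb A (C (pairBits x h)) ≤ 1 / 3))

end Pool.Agent.W908.LS
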